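import Pool.Agent.Y752.QF.All5

set_option autoImplicit false

/-!
The recipe of Conrey, Farmer, Keating, Rubinstein and Snaith for products of shifted central values of
the L-functions of the real primitive characters, for almost all shift vectors in `[-H, H] ^ k`, for
every `k`, where `H ≥ X ^ (1 + η)`, with an explicit remainder.
-/

namespace Pool.Agent.Results.MP_ea46f5_nt.GenericShifts

open Complex MeasureTheory

noncomputable section

variable {k : ℕ}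

open Classical in
/-- The real primitive characters of conductor `q + 1` other than the trivial character, even ones for
`odd = false` and odd ones for `odd = true`. These are the Kronecker symbols of the fundamental
discriminants `d ≠ 1` with `|d| = q + 1`, with `d > 0` for `odd = false` and `d < 0` for
`odd = true`. -/
def chars (odd : Bool) (q : ℕ) : Finset (DirichletCharacter ℂ (q + 1)) :=
  Finset.univ.filter fun χ => χ.IsPrimitive ∧ χ ^ 2 = 1 ∧ χ ≠ 1 ∧ χ (-1) = if odd then -1 else 1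

/-- The sum over the characters of conductor at most `X` of `∏ j, L(1/2 + i γ_j, χ)`. -/
def moment (odd : Bool) (X : ℕ) (γ : Fin k → ℝ) : ℂ :=
  ∑ q ∈ Finset.range X, ∑ χ ∈ chars odd q,
    ∏ j, DirichletCharacter.LFunction χ (1 / 2 + I * (γ j : ℂ))

/-- The pairs `i ≤ j`. -/
def pairs (k : ℕ) : Finset (Fin k × Fin k) := Finset.univ.filter fun e => e.1 ≤ e.2

/-- The Euler factor of `A_k(iγ_1, ..., iγ_k)` at the prime `p`. -/
def localFactor (γ : Fin k → ℝ) (p : ℕ) : ℂ :=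
  (∏ e ∈ pairs k, (1 - (p : ℂ) ^ (-(1 + I * ((γ e.1 : ℂ) + (γ e.2 : ℂ)))))) *
    ((((∏ j : Fin k, (1 - (p : ℂ) ^ (-(1 / 2 + I * (γ j : ℂ))))⁻¹) +
      ∏ j : Fin k, (1 + (p : ℂ) ^ (-(1 / 2 + I * (γ j : ℂ))))⁻¹) / 2 + 1 / p) / (1 + 1 / p))

/-- `A_k(iγ_1, ..., iγ_k)`, an Euler product. -/
def arithA (γ : Fin k → ℝ) : ℂ := ∏' p : Nat.Primes, localFactor γ p

/-- `A_k(iγ) ∏_{i ≤ j} ζ(1 + iγ_i + iγ_j)`. -/
def mainFactor (γ : Fin k → ℝ) : ℂ :=
  arithA γ * ∏ e ∈ pairs k, riemannZeta (1 + I * ((γ e.1 : ℂ) + (γ e.2 : ℂ)))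

/-- `π^(s-1/2) Γ((1-s+a)/2) / Γ((s+a)/2)`, the factor of the functional equation without the
conductor; `a = 1` for odd characters and `a = 0` for even ones. -/
def xfac (odd : Bool) (s : ℂ) : ℂ :=
  (Real.pi : ℂ) ^ (s - 1 / 2) * Gamma ((1 - s + ((if odd then 1 else 0 : ℕ) : ℂ)) / 2) /
    Gamma ((s + ((if odd then 1 else 0 : ℕ) : ℂ)) / 2)

/-- The vector `γ` with the signs changed on `S`. -/
def flip (S : Finset (Fin k)) (γ : Fin k → ℝ) : Fin k → ℝ := fun j => if j ∈ S then -γ j else γ j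

/-- The full recipe: the sum over all sets `S` of swapped shifts of
`∑_χ |d|^(-i ∑_{j ∈ S} γ_j) ∏_{j ∈ S} X(1/2 + iγ_j) A_k ∏ ζ` at the vector with the signs changed on
`S`, where `|d|` is the conductor of `χ`. -/
def recipe (odd : Bool) (X : ℕ) (γ : Fin k → ℝ) : ℂ :=
  ∑ S : Finset (Fin k),
    (∑ q ∈ Finset.range X, ∑ _χ ∈ chars odd q,
      ((q + 1 : ℕ) : ℂ) ^ (-(I * ((∑ j ∈ S, γ j : ℝ) : ℂ)))) *
    (∏ j ∈ S, xfac odd (1 / 2 + I * (γ j : ℂ))) * mainFactor (flip S γ)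

/-- The remainder. -/
def remainder (X : ℕ) (H ε : ℝ) : ℝ :=
  (X : ℝ) ^ ε * ((X : ℝ) ^ (1 / 2 : ℝ) + (X : ℝ) ^ (3 / 2 : ℝ) * H ^ (-(1 / 2) : ℝ))

lemma moment_eq (odd : Bool) (X : ℕ) (γ : Fin k → ℝ) : moment odd X γ =
    ∑ p ∈ Pool.Agent.Y752.QF.QFs odd X, ∏ j, Pool.Agent.Y752.QF.LL p (1 / 2 + I * (γ j : ℂ)) := by
  rw [Pool.Agent.Y752.QF.sum_QFs Pool.Agent.Y752.QF.t_IN]
  simp only [Pool.Agent.Y752.QF.LL_succ]
  rfl

lemma mainFactor_eq (γ : Fin k → ℝ) : mainFactor γ = Pool.Agent.Y752.QF.Mt γ := rfl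

lemma recipe_eq (odd : Bool) (X : ℕ) (γ : Fin k → ℝ) : recipe odd X γ =
    ∑ S : Finset (Fin k), Pool.Agent.Y752.QF.Rt odd X S γ := by
  unfold recipe
  refine Finset.sum_congr rfl fun S _ => ?_
  unfold Pool.Agent.Y752.QF.Rt
  rw [Pool.Agent.Y752.QF.sum_QFs Pool.Agent.Y752.QF.t_IN]
  rfl

/-- Let `k ≥ 1`, `η > 0`, `A` and `ε > 0` be given. There are `δ > 0` and `X₀` such that for both
parities, all `X ≥ X₀` and all `H` with `X ^ (1 + η) ≤ H ≤ X ^ A`, for all shift vectors `γ` in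
`[-H, H] ^ k` outside a set of measure at most `H ^ k X ^ (-δ)`, the sum over all real primitive
characters `χ ≠ 1` of the given parity and of conductor at most `X` of `∏ j, L(1/2 + iγ_j, χ)` differs
by at most `X ^ ε (X ^ (1/2) + X ^ (3/2) H ^ (-1/2))` both from
`(3 / π²) X A_k(iγ) ∏_{i ≤ j} ζ(1 + iγ_i + iγ_j)` and from the full recipe. -/
theorem result (k : ℕ) (hk : 1 ≤ k) (η A ε : ℝ) (hη : 0 < η) (hε : 0 < ε) :
    ∃ (δ : ℝ) (X₀ : ℕ), 0 < δ ∧
    ∀ (odd : Bool) (X : ℕ) (H : ℝ), X₀ ≤ X → (X : ℝ) ^ (1 + η) ≤ H → H ≤ (X : ℝ) ^ A →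
    volume {γ : Fin k → ℝ | (∀ j, |γ j| ≤ H) ∧
      (remainder X H ε < ‖moment odd X γ - ((3 / Real.pi ^ 2 * X : ℝ) : ℂ) * mainFactor γ‖ ∨
        remainder X H ε < ‖moment odd X γ - recipe odd X γ‖)} ≤
      ENNReal.ofReal (H ^ k * (X : ℝ) ^ (-δ)) := by
  obtain ⟨δ, X0, hδ, h⟩ := Pool.Agent.Y752.QF.fin5 k hk η A ε hη hε
  refine ⟨δ, X0, hδ, fun odd X H hX h1 h2 => ?_⟩
  simp only [moment_eq, mainFactor_eq, recipe_eq, remainder]
  exact h odd X H hX h1 h2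

end

end Pool.Agent.Results.MP_ea46f5_nt.GenericShifts
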