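import Pool.Agent.Y122.TQ.All2

/-!
# The frequencies of the values of quadratic Dirichlet `L`-functions near the central point

`χ_d`, `d ≠ 1` a fundamental discriminant, are the real primitive characters `χ ≠ 1`; `|d|` is the
conductor and the sign of `d` is `χ(-1)`. So `quads ε X` is the set `S_+(X)` (`ε = 1`, the
discriminant `1` removed) or `S_-(X)` (`ε = -1`) of the problem.

Unconditionally, for both signs, in the range `C loglog X / log X ≤ δ ≤ δ₀`: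

* large deviations on all scales, on both sides of the typical size `δ^(-1/2)`: for `u ≥ 1/2` the
  number of `χ` with `|L(1/2 + δ, χ)| ≥ δ^(-u)`, and for `u ≤ 1/2` the number of those with
  `|L(1/2 + δ, χ)| ≤ δ^(-u)`, is at most `K X δ^((u - 1/2)²/2)` and, for each `η > 0`, at least
  `X δ^((u - 1/2)²/2 + η)`;
* for `0 < β < 2` the sum of `|L(1/2 + δ, χ)|^β` is carried by the `χ` with
  `|L(1/2 + δ, χ)| = δ^(-(β + 1/2) + O(η))`: the others contribute at most `K δ^κ` of it, `κ > 0`;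
* for all real `β`, positive or negative, the same for the sums of `|L(1/2 + δ, χ)|^β` with `|L|`
  truncated to `[1/V, V]`, `(log X)^A ≤ V ≤ X^(c δ)`.

So the power `k (k + 1) / 2` of the conjecture comes from `X δ^(k²/2 + o(1))` characters with
`|L| = δ^(-(k + 1/2) + o(1))`.
-/

set_option autoImplicit false

namespace Pool.Agent.Results.MP_ea46f5_nt.LargeDeviations

noncomputable section

/-- The real primitive characters `χ ≠ 1` of conductor `< X` with `χ(-1) = ε`. -/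
def quads (ε : ℤ) (X : ℝ) : Set (Σ N : ℕ, DirichletCharacter ℂ N) :=
  {χ | χ.1 ≠ 0 ∧ (χ.1 : ℝ) < X ∧ χ.2.IsPrimitive ∧ χ.2 ^ 2 = 1 ∧ χ.2 ≠ 1 ∧ χ.2 (-1) = (ε : ℂ)}

open Classical in
/-- The value `L(1/2 + δ, χ)`. -/
def value (δ : ℝ) (χ : Σ N : ℕ, DirichletCharacter ℂ N) : ℂ :=
  if h : χ.1 ≠ 0 then
    haveI : NeZero χ.1 := ⟨h⟩
    DirichletCharacter.LFunction χ.2 ((1 / 2 + δ : ℝ) : ℂ)
  else 0

/-- The value of `v` truncated to `[1/V, V]`. -/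
def cut (V v : ℝ) : ℝ := max V⁻¹ (min v V)

/-- `v` is between `δ^(-(β + 1/2 - η))` and `δ^(-(β + 1/2 + η))`. -/
def near (β η δ v : ℝ) : Prop := δ ^ (-(β + 1 / 2 - η)) ≤ v ∧ v ≤ δ ^ (-(β + 1 / 2 + η))

theorem result :
    -- the sets of characters are finite
    (∀ ε : ℤ, (ε = 1 ∨ ε = -1) → ∀ X : ℝ, 1 < X → (quads ε X).Finite) ∧
    -- large deviations above and below the typical size
    (∀ u η : ℝ, 0 < η → ∃ K C X₀ δ₀ : ℝ, 0 < C ∧ 0 < δ₀ ∧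
      ∀ X : ℝ, X₀ ≤ X → ∀ ε : ℤ, (ε = 1 ∨ ε = -1) →
      ∀ δ : ℝ, C * Real.log (Real.log X) / Real.log X ≤ δ → δ ≤ δ₀ →
        (1 / 2 ≤ u →
          X * δ ^ ((u - 1 / 2) ^ 2 / 2 + η) ≤ ({χ ∈ quads ε X | δ ^ (-u) ≤ ‖value δ χ‖}.ncard : ℝ) ∧
          ({χ ∈ quads ε X | δ ^ (-u) ≤ ‖value δ χ‖}.ncard : ℝ) ≤ K * X * δ ^ ((u - 1 / 2) ^ 2 / 2)) ∧
        (u ≤ 1 / 2 →
          X * δ ^ ((u - 1 / 2) ^ 2 / 2 + η) ≤ ({χ ∈ quads ε X | ‖value δ χ‖ ≤ δ ^ (-u)}.ncard : ℝ) ∧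
          ({χ ∈ quads ε X | ‖value δ χ‖ ≤ δ ^ (-u)}.ncard : ℝ) ≤ K * X * δ ^ ((u - 1 / 2) ^ 2 / 2))) ∧
    -- the values carrying the moments of order between 0 and 2
    (∀ β η : ℝ, 0 < β → β < 2 → 0 < η → ∃ κ K C X₀ δ₀ : ℝ, 0 < κ ∧ 0 < C ∧ 0 < δ₀ ∧
      ∀ X : ℝ, X₀ ≤ X → ∀ ε : ℤ, (ε = 1 ∨ ε = -1) →
      ∀ δ : ℝ, C * Real.log (Real.log X) / Real.log X ≤ δ → δ ≤ δ₀ →
        ∑ᶠ χ ∈ {χ ∈ quads ε X | ¬ near β η δ ‖value δ χ‖}, ‖value δ χ‖ ^ β ≤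
          K * δ ^ κ * ∑ᶠ χ ∈ quads ε X, ‖value δ χ‖ ^ β) ∧
    -- the values carrying the truncated moments of any real order
    (∀ β η : ℝ, 0 < η → ∃ c κ : ℝ, 0 < c ∧ 0 < κ ∧ ∃ (A : ℕ) (K C X₀ δ₀ : ℝ), 0 < C ∧ 0 < δ₀ ∧
      ∀ X : ℝ, X₀ ≤ X → ∀ ε : ℤ, (ε = 1 ∨ ε = -1) →
      ∀ δ : ℝ, C * Real.log (Real.log X) / Real.log X ≤ δ → δ ≤ δ₀ →
      ∀ V : ℝ, Real.log X ^ A ≤ V → V ≤ X ^ (c * δ) →
        ∑ᶠ χ ∈ {χ ∈ quads ε X | ¬ near β η δ (cut V ‖value δ χ‖)}, cut V ‖value δ χ‖ ^ β ≤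
          K * δ ^ κ * ∑ᶠ χ ∈ quads ε X, cut V ‖value δ χ‖ ^ β) := by
  refine ⟨fun ε hε X hX => (Pool.Agent.Y122.TQ.TR ε hε X hX).1, fun u η hη => ?_,
    fun β η hβ hβ2 hη => ?_, fun β η hη => ?_⟩
  · obtain ⟨K, C, X₀, δ₀, hC, hδ₀, _, h⟩ := Pool.Agent.Y122.TQ.a_LD2 u η hη
    exact ⟨K, C, X₀, δ₀, hC, hδ₀, h⟩
  · obtain ⟨κ, hκ, K, C, X₀, δ₀, hC, hδ₀, h⟩ := Pool.Agent.Y122.TQ.LOC2 Pool.Agent.Y122.TQ.a_FIN2
      Pool.Agent.Y122.TQ.a_LC Pool.Agent.Y122.TQ.a_FIN β η hβ hβ2 hη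
    exact ⟨κ, K, C, X₀, δ₀, hκ, hC, hδ₀, h⟩
  · obtain ⟨c, κ, hc, hκ, A, K, C, X₀, δ₀, hC, hδ₀, h⟩ := Pool.Agent.Y122.TQ.LOC3
      Pool.Agent.Y122.TQ.a_FIN Pool.Agent.Y122.TQ.a_LC β η hη
    exact ⟨c, κ, hc, hκ, A, K, C, X₀, δ₀, hC, hδ₀, h⟩

end

end Pool.Agent.Results.MP_ea46f5_nt.LargeDeviations
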