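import Pool.Agent.Y122.TQ.All

/-!
# Moments of quadratic Dirichlet `L`-functions near the central point, for all real exponents

`χ_d`, `d ≠ 1` a fundamental discriminant, are the real primitive characters `χ ≠ 1`; `|d|` is the
conductor and the sign of `d` is `χ(-1)`. So `quads ε X` is the set `S_+(X)` (`ε = 1`, the
discriminant `1` removed) or `S_-(X)` (`ε = -1`) of the problem.

For real `β` and `δ > 0` put

`M(β, δ) = ∏_p (1 + 1/p)⁻¹ (((1 - p^(-1/2-δ))^(-β) + (1 + p^(-1/2-δ))^(-β)) / 2 + 1/p)`.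

For a natural number `β = k` this is `A_k(δ, …, δ) ζ(1 + 2δ)^(k(k+1)/2)`, with the Euler product
`A_k` of the problem, that is the main term of the recipe for the `k`-th moment with all the shifts
equal to `δ`.

Unconditionally, in the range `C loglog X / log X ≤ δ ≤ 1/16`, for both signs:

* for all real `β`, `|β| ≤ m`, positive or negative, and all truncations
  `(log X)^A ≤ V ≤ X^(c δ)`: the sum over `χ` of `|L(1/2 + δ, χ)|^β`, with `|L|` truncated to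
  `[1/V, V]`, is `(3/π²) X M(β, δ) + O(X (log X)^(-B))`;
* for `0 < β < 2` the same holds without truncation;
* for every `β > 0` the sum of `|L(1/2 + δ, χ)|^β` is at least `(3/π²) X M(β, δ) - X (log X)^(-B)`.

As `δ → 0` the product `(2δ)^(β(β+1)/2) M(β, δ)` tends to `a(β) > 0`, the arithmetic factor of the
conjecture (`a(k) = A_k(0, …, 0)` for natural `k`).
-/

set_option autoImplicit false

namespace Pool.Agent.Results.MP_ea46f5_nt.TruncatedMoments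

noncomputable section

/-- The real primitive characters `χ ≠ 1` of conductor `< X` with `χ(-1) = ε`. -/
def quads (ε : ℤ) (X : ℝ) : Set (Σ N : ℕ, DirichletCharacter ℂ N) :=
  {χ | χ.1 ≠ 0 ∧ (χ.1 : ℝ) < X ∧ χ.2.IsPrimitive ∧ χ.2 ^ 2 = 1 ∧ χ.2 ≠ 1 ∧ χ.2 (-1) = (ε : ℂ)}

open Classical in
/-- The value `L(1/2 + δ, χ)`. -/
def value (δ : ℝ) (χ : Σ N : ℕ, DirichletCharacter ℂ N) : ℂ :=
  if h : χ.1 ≠ 0 then
    haveI : NeZero χ.1 := ⟨h⟩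
    DirichletCharacter.LFunction χ.2 ((1 / 2 + δ : ℝ) : ℂ)
  else 0

/-- The Euler factor of the main term at `p`. -/
def factor (β δ : ℝ) (p : ℕ) : ℝ :=
  (1 + 1 / (p : ℝ))⁻¹ * (((1 - (p : ℝ) ^ (-(1 / 2 + δ))) ^ (-β) +
    (1 + (p : ℝ) ^ (-(1 / 2 + δ))) ^ (-β)) / 2 + 1 / p)

/-- The main term `M(β, δ)`. -/
def M (β δ : ℝ) : ℝ := ∏' p : Nat.Primes, factor β δ p

/-- The Euler product `A_k(δ, …, δ)` of the problem: the product over `i ≤ j` has `k (k + 1) / 2`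
factors. -/
def A (k : ℕ) (δ : ℝ) : ℝ :=
  ∏' p : Nat.Primes, (1 - (p : ℝ) ^ (-(1 + 2 * δ))) ^ (k * (k + 1) / 2) * factor k δ p

/-- The arithmetic factor `a(β)`; for natural `β = k` it is `A_k(0, …, 0)`. -/
def a (β : ℝ) : ℝ := ∏' p : Nat.Primes, (1 - 1 / (p : ℝ)) ^ (β * (β + 1) / 2) * factor β 0 p

/-- The value of `v` truncated to `[1/V, V]`. -/
def cut (V v : ℝ) : ℝ := max V⁻¹ (min v V)

theorem result :
    -- the main term
    (∀ β δ : ℝ, 0 < δ → Multipliable (fun p : Nat.Primes => factor β δ p)) ∧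
    (∀ (k : ℕ) (δ : ℝ), 0 < δ → M k δ = A k δ * (riemannZeta (1 + 2 * δ : ℝ)).re ^ (k * (k + 1) / 2)) ∧
    (∀ β : ℝ, Multipliable (fun p : Nat.Primes => (1 - 1 / (p : ℝ)) ^ (β * (β + 1) / 2) * factor β 0 p) ∧
      0 < a β ∧ Filter.Tendsto (fun δ : ℝ => (2 * δ) ^ (β * (β + 1) / 2) * M β δ)
        (nhdsWithin 0 (Set.Ioi 0)) (nhds (a β))) ∧
    (∀ k : ℕ, a k = A k 0) ∧
    -- the sets of characters are finite
    (∀ ε : ℤ, (ε = 1 ∨ ε = -1) → ∀ X : ℝ, 1 < X → (quads ε X).Finite) ∧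
    -- all real exponents, truncated
    (∀ m : ℕ, ∃ c : ℝ, 0 < c ∧ ∀ B : ℕ, ∃ (A : ℕ) (C X₀ : ℝ), 0 < C ∧
      ∀ X : ℝ, X₀ ≤ X → ∀ ε : ℤ, (ε = 1 ∨ ε = -1) →
      ∀ δ : ℝ, C * Real.log (Real.log X) / Real.log X ≤ δ → δ ≤ 1 / 16 →
      ∀ V : ℝ, Real.log X ^ A ≤ V → V ≤ X ^ (c * δ) → ∀ β : ℝ, |β| ≤ m →
        |∑ᶠ χ ∈ quads ε X, cut V ‖value δ χ‖ ^ β - 3 / Real.pi ^ 2 * X * M β δ| ≤
          X / Real.log X ^ B) ∧
    -- exponents between 0 and 2, not truncated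
    (∀ β : ℝ, 0 < β → β < 2 → ∀ B : ℕ, ∃ C X₀ : ℝ, 0 < C ∧
      ∀ X : ℝ, X₀ ≤ X → ∀ ε : ℤ, (ε = 1 ∨ ε = -1) →
      ∀ δ : ℝ, C * Real.log (Real.log X) / Real.log X ≤ δ → δ ≤ 1 / 16 →
        |∑ᶠ χ ∈ quads ε X, ‖value δ χ‖ ^ β - 3 / Real.pi ^ 2 * X * M β δ| ≤
          X / Real.log X ^ B) ∧
    -- lower bounds for all positive exponents
    (∀ β : ℝ, 0 < β → ∀ B : ℕ, ∃ C X₀ : ℝ, 0 < C ∧
      ∀ X : ℝ, X₀ ≤ X → ∀ ε : ℤ, (ε = 1 ∨ ε = -1) →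
      ∀ δ : ℝ, C * Real.log (Real.log X) / Real.log X ≤ δ → δ ≤ 1 / 16 →
        3 / Real.pi ^ 2 * X * M β δ - X / Real.log X ^ B ≤
          ∑ᶠ χ ∈ quads ε X, ‖value δ χ‖ ^ β) := by
  have hM : ∀ β δ : ℝ, 0 < δ → HasProd (fun p : Nat.Primes => factor β δ p)
      (Pool.Agent.Y122.TQ.lfac β δ 2 * Pool.Agent.Y122.TQ.MT β δ) :=
    fun β δ hδ => Pool.Agent.Y122.TQ.a_EP β δ hδ
  have hM' : ∀ β δ : ℝ, 0 < δ → Pool.Agent.Y122.TQ.lfac β δ 2 * Pool.Agent.Y122.TQ.MT β δ = M β δ :=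
    fun β δ hδ => ((hM β δ hδ).tprod_eq).symm
  have hpos : ∀ (C X₀ : ℝ), 0 < C → ∀ X δ : ℝ, max X₀ 16 ≤ X →
      C * Real.log (Real.log X) / Real.log X ≤ δ → 0 < δ := by
    intro C X₀ hC X δ hX hδ
    have h16 : (16:ℝ) ≤ X := (le_max_right _ _).trans hX
    have h1 : 1 < Real.log X := by
      rw [Real.lt_log_iff_exp_lt (by linarith)]
      linarith [Real.exp_one_lt_d9]
    have h2 : 0 < Real.log (Real.log X) := Real.log_pos h1
    have h3 : 0 < C * Real.log (Real.log X) / Real.log X := by positivity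
    linarith
  refine ⟨fun β δ hδ => (hM β δ hδ).multipliable, fun k δ hδ => ?_, fun β => ?_, fun k => ?_,
    fun ε hε X hX => (Pool.Agent.Y122.TQ.TR ε hε X hX).1, fun m => ?_, fun β hβ hβ2 B => ?_, fun β hβ B => ?_⟩
  · have h1 := Pool.Agent.Y122.TQ.ak_hasProd (hM k δ hδ) hδ (k * (k + 1) / 2)
    have h2 := (Pool.Agent.Y122.TQ.zeta_real_hasProd hδ).2
    have h3 : A k δ = ((riemannZeta (1 + 2 * δ : ℝ)).re ^ (k * (k + 1) / 2))⁻¹ * M k δ := by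
      rw [← hM' k δ hδ]
      exact h1.tprod_eq
    rw [h3]
    have h4 : (riemannZeta (1 + 2 * δ : ℝ)).re ^ (k * (k + 1) / 2) ≠ 0 := pow_ne_zero _ h2.ne'
    field_simp
  · obtain ⟨h1, h2, h3⟩ := Pool.Agent.Y122.TQ.a_LC β
    refine ⟨h1, h2, h3.congr' ?_⟩
    filter_upwards [self_mem_nhdsWithin] with δ hδ
    rw [hM' β δ hδ]
  · unfold a A
    refine tprod_congr fun p => ?_
    have h1 : (p : ℝ) ^ (-(1 + 2 * (0 : ℝ))) = 1 / (p : ℝ) := by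
      rw [mul_zero, add_zero, Real.rpow_neg_one, one_div]
    have h2 : ((k : ℝ) * (k + 1) / 2) = ((k * (k + 1) / 2 : ℕ) : ℝ) := by
      rw [Nat.cast_div (Nat.even_mul_succ_self k).two_dvd (by norm_num)]
      push_cast
      ring
    rw [h1, h2, Real.rpow_natCast]
  · obtain ⟨c, hc, h⟩ := Pool.Agent.Y122.TQ.a_FIN m
    refine ⟨c, hc, fun B => ?_⟩
    obtain ⟨A', C, X₀, hC, h2⟩ := h B
    refine ⟨A', C, max X₀ 16, hC, fun X hX ε hε δ hδ hδ1 V hV1 hV2 β hβ => ?_⟩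
    have h3 := (h2 X ((le_max_left _ _).trans hX) ε hε).2 δ hδ hδ1 V hV1 hV2 β hβ
    rw [hM' β δ (hpos C X₀ hC X δ hX hδ)] at h3
    exact h3
  · obtain ⟨C, X₀, hC, h2⟩ := Pool.Agent.Y122.TQ.a_FIN2 β hβ hβ2 B
    refine ⟨C, max X₀ 16, hC, fun X hX ε hε δ hδ hδ1 => ?_⟩
    have h3 := h2 X ((le_max_left _ _).trans hX) ε hε δ hδ hδ1
    rw [hM' β δ (hpos C X₀ hC X δ hX hδ)] at h3
    exact h3
  · obtain ⟨C, X₀, hC, h2⟩ := Pool.Agent.Y122.TQ.a_FIN3 β hβ B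
    refine ⟨C, max X₀ 16, hC, fun X hX ε hε δ hδ hδ1 => ?_⟩
    have h3 := h2 X ((le_max_left _ _).trans hX) ε hε δ hδ hδ1
    rw [hM' β δ (hpos C X₀ hC X δ hX hδ)] at h3
    exact h3

end

end Pool.Agent.Results.MP_ea46f5_nt.TruncatedMoments
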